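import Pool.Agent.H98.PW.Stmts

set_option autoImplicit false

namespace Pool.PW

open Finset Filter MvPolynomial Pool.Agent.H98.ABCR

namespace H22G

variable {U : Ultrafilter ℕ} {X : ℕ → ℝ} {n : ℕ}

/-- the ideal of a family -/
def idl (T : ℕ → Finset (Fin n → ℕ)) : Ideal (RP U X n) where
  carrier := {F | Van T F}
  add_mem' := by
    intro F G hF hG
    filter_upwards [hF, hG] with m h1 h2
    intro x hx
    have h3 := h1 x hx
    have h4 := h2 x hx
    unfold ev lv at h3 h4 ⊢
    rw [map_add, map_add, h3, h4, add_zero]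
  zero_mem' := Eventually.of_forall fun m x _ => by
    unfold ev lv
    rw [map_zero, map_zero]
  smul_mem' := by
    intro F G hG
    filter_upwards [hG] with m h2
    intro x hx
    have h4 := h2 x hx
    unfold ev lv at h4 ⊢
    rw [smul_eq_mul, map_mul, map_mul, h4, mul_zero]

end H22G

open H22G

theorem gen_thm (hN : S_NOEM) : S_GEN := by
  intro U X n S _ hS
  obtain ⟨I, ⟨T, hT, hTL, rfl⟩, hmax⟩ := hN U X n
    {I | ∃ T : ℕ → Finset (Fin n → ℕ), (∀ m, T m ⊆ S m) ∧ Large U X T ∧ I = idl T}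
    ⟨idl S, S, fun _ => subset_rfl, hS, rfl⟩ (by
      rintro I ⟨T, hT, hTL, rfl⟩ F hF
      show Van T F
      filter_upwards [hF] with m hm
      intro x _
      unfold ev
      rw [hm, map_zero])
  refine ⟨T, hT, hTL, fun T' hT' hL F hF => ?_⟩
  refine hmax (idl T') ⟨T', fun m => (hT' m).trans (hT m), hL, rfl⟩ ?_ hF
  intro F' hF'
  show Van T' F'
  have h1 : Van T F' := hF'
  filter_upwards [h1] with m hm
  intro x hx
  exact hm x (hT' m hx)

end Pool.PW
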