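import Pool.Agent.H22.PW.NOEM

set_option autoImplicit false

namespace Pool.PW

open Finset Filter MvPolynomial Pool.Agent.H98.ABCR
open H22N

theorem noef_thm : S_NOEF := by
  classical
  intro U X n I hI
  have hN := noeth U X n
  obtain ⟨S, hS⟩ := (isNoetherianRing_iff_ideal_fg _).mp hN (Ideal.map (red U X n) I)
  have hlift : ∀ s ∈ S, ∃ F ∈ I, red U X n F = s := by
    intro s hs
    have h1 : s ∈ Ideal.map (red U X n) I := by
      rw [← hS]
      exact Ideal.subset_span hs
    exact (Ideal.mem_map_iff_of_surjective _ red_surj).mp h1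
  choose! f hf1 hf2 using hlift
  refine ⟨S.card, fun a => f (S.equivFin.symm a), fun a => hf1 _ (S.equivFin.symm a).2, ?_⟩
  intro F hF
  have h1 : red U X n F ∈ Ideal.span (S : Set (MvPolynomial (Fin n) (Modr U X ⧸ nul U X))) := by
    rw [hS]
    exact Ideal.mem_map_of_mem _ hF
  obtain ⟨c, hc⟩ := Submodule.mem_span_finset'.mp h1
  have hex : ∀ a : Fin S.card, ∃ Q : RP U X n, red U X n Q = c (S.equivFin.symm a) := fun a =>
    red_surj _
  choose Q hQ using hex
  refine ⟨Q, ?_⟩
  rw [null_iff, map_sub, sub_eq_zero, ← hc, map_sum]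
  rw [← Equiv.sum_comp S.equivFin.symm]
  refine Finset.sum_congr rfl fun a _ => ?_
  rw [map_mul, hQ a, hf2 _ (S.equivFin.symm a).2, smul_eq_mul]

end Pool.PW
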