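import Pool.Agent.H98.PW.Stmts

set_option autoImplicit false

namespace Pool.PW

open Finset Filter MvPolynomial Pool.Agent.H98.ABCR

namespace H22N

variable {U : Ultrafilter ℕ} {X : ℕ → ℝ} {n : ℕ}

/-- the null sequences -/
def nul (U : Ultrafilter ℕ) (X : ℕ → ℝ) : Ideal (Modr U X) where
  carrier := {a | ∀ᶠ m in (U : Filter ℕ), lam m a = 0}
  add_mem' := by
    intro a b ha hb
    filter_upwards [ha, hb] with m h1 h2
    rw [map_add, h1, h2, add_zero]
  zero_mem' := Eventually.of_forall fun m => map_zero _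
  smul_mem' := by
    intro c a ha
    filter_upwards [ha] with m h1
    rw [smul_eq_mul, map_mul, h1, mul_zero]

lemma mem_nul (a : Modr U X) : a ∈ nul U X ↔ ∀ᶠ m in (U : Filter ℕ), lam m a = 0 := Iff.rfl

lemma exists_inv (a : Modr U X) (ha : a ∉ nul U X) : ∃ b : Modr U X, a * b - 1 ∈ nul U X := by
  have h1 : ∀ᶠ m in (U : Filter ℕ), ¬ lam m a = 0 := Ultrafilter.eventually_not.mpr ha
  obtain ⟨C, u, v, h⟩ := a.2
  have hb : (fun m => ((a : ℕ → ℚ) m)⁻¹) ∈ Modr U X := by
    refine ⟨C, v, u, ?_⟩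
    filter_upwards [h, h1] with m ⟨h2, h3, h4, h5⟩ h6
    have h7 : (a : ℕ → ℚ) m ≠ 0 := h6
    have hv : (v m : ℚ) ≠ 0 := by exact_mod_cast h2
    refine ⟨?_, ?_, h5, h4⟩
    · intro h8
      rw [h8, Int.cast_zero] at h3
      exact mul_ne_zero h7 hv h3
    · rw [← h3]
      field_simp
  refine ⟨⟨_, hb⟩, ?_⟩
  rw [mem_nul]
  filter_upwards [h1] with m h6
  have h7 : (a : ℕ → ℚ) m ≠ 0 := h6
  rw [map_sub, map_mul, map_one]
  show (a : ℕ → ℚ) m * ((a : ℕ → ℚ) m)⁻¹ - 1 = 0
  rw [mul_inv_cancel₀ h7, sub_self]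

lemma nul_max (U : Ultrafilter ℕ) (X : ℕ → ℝ) : (nul U X).IsMaximal := by
  rw [Ideal.isMaximal_iff]
  constructor
  · rw [mem_nul]
    intro h
    obtain ⟨m, hm⟩ := h.exists
    rw [map_one] at hm
    exact one_ne_zero hm
  · intro J x hJ hx hxJ
    obtain ⟨b, hb⟩ := exists_inv x hx
    have h1 : x * b - 1 ∈ J := hJ hb
    have h2 : x * b ∈ J := J.mul_mem_right b hxJ
    have h3 : (1 : Modr U X) = x * b - (x * b - 1) := by ring
    rw [h3]
    exact J.sub_mem h2 h1

/-- reduction modulo the null sequences -/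
noncomputable def red (U : Ultrafilter ℕ) (X : ℕ → ℝ) (n : ℕ) :
    RP U X n →+* MvPolynomial (Fin n) (Modr U X ⧸ nul U X) :=
  MvPolynomial.map (Ideal.Quotient.mk (nul U X))

lemma red_surj : Function.Surjective (red U X n) :=
  MvPolynomial.map_surjective _ Ideal.Quotient.mk_surjective

lemma null_iff (F : RP U X n) : Null F ↔ red U X n F = 0 := by
  have h1 : red U X n F = 0 ↔ ∀ c, MvPolynomial.coeff c F ∈ nul U X := by
    constructor
    · intro h c
      have h2 := congrArg (MvPolynomial.coeff c) h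
      rw [red, MvPolynomial.coeff_map, MvPolynomial.coeff_zero, Ideal.Quotient.eq_zero_iff_mem] at h2
      exact h2
    · intro h
      ext c
      rw [red, MvPolynomial.coeff_map, MvPolynomial.coeff_zero, Ideal.Quotient.eq_zero_iff_mem]
      exact h c
  rw [h1]
  have h2 : ∀ m, lv m F = 0 ↔ ∀ c ∈ F.support, lam m (MvPolynomial.coeff c F) = 0 := by
    intro m
    constructor
    · intro h c _
      have h3 := congrArg (MvPolynomial.coeff c) h
      rw [lv, MvPolynomial.coeff_map, MvPolynomial.coeff_zero] at h3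
      exact h3
    · intro h
      ext c
      rw [lv, MvPolynomial.coeff_map, MvPolynomial.coeff_zero]
      by_cases hc : c ∈ F.support
      · exact h c hc
      · rw [MvPolynomial.notMem_support_iff.mp hc, map_zero]
  unfold Null
  simp only [h2]
  rw [Filter.eventually_all_finset]
  constructor
  · intro h c
    by_cases hc : c ∈ F.support
    · exact h c hc
    · rw [MvPolynomial.notMem_support_iff.mp hc]
      exact (nul U X).zero_mem
  · intro h c _
    exact h c

lemma noeth (U : Ultrafilter ℕ) (X : ℕ → ℝ) (n : ℕ) :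
    IsNoetherianRing (MvPolynomial (Fin n) (Modr U X ⧸ nul U X)) := by
  have := nul_max U X
  let _ := Ideal.Quotient.field (nul U X)
  infer_instance

lemma comap_map (I : Ideal (RP U X n)) (hI : ∀ F : RP U X n, Null F → F ∈ I) :
    Ideal.comap (red U X n) (Ideal.map (red U X n) I) = I := by
  rw [Ideal.comap_map_of_surjective _ red_surj]
  refine sup_eq_left.mpr ?_
  intro F hF
  rw [Ideal.mem_comap, Ideal.mem_bot] at hF
  exact hI F ((null_iff F).mpr hF)

end H22N

open H22N

theorem noem_thm : S_NOEM := by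
  intro U X n 𝒮 hne h𝒮
  have hN := noeth U X n
  have h1 : ((Ideal.map (red U X n)) '' 𝒮).Nonempty := hne.image _
  obtain ⟨K, ⟨I, hI, rfl⟩, hmax⟩ := set_has_maximal_iff_noetherian.mpr hN _ h1
  refine ⟨I, hI, fun I' hI' hle => ?_⟩
  have h2 : Ideal.map (red U X n) I ≤ Ideal.map (red U X n) I' := Ideal.map_mono hle
  have h3 : ¬ Ideal.map (red U X n) I < Ideal.map (red U X n) I' := hmax _ ⟨I', hI', rfl⟩
  have h4 : Ideal.map (red U X n) I = Ideal.map (red U X n) I' :=
    le_antisymm h2 (not_lt_iff_le_imp_ge.mp h3 h2)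
  rw [← comap_map I (h𝒮 I hI), ← comap_map I' (h𝒮 I' hI'), h4]

end Pool.PW
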